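import Mathlib

set_option autoImplicit false

namespace Pool.Agent.H.MP_400a6b_co

open MvPowerSeries

abbrev S := MvPowerSeries (Fin 2) ℚ
abbrev Pl := MvPolynomial (Fin 2) ℚ

def IsRat (R : S) : Prop :=
  ∃ P Q : Pl, MvPolynomial.constantCoeff Q ≠ 0 ∧ R * (Q : S) = (P : S)

lemma IsRat.coe (P : Pl) : IsRat (P : S) := ⟨P, 1, by simp, by simp⟩

lemma IsRat.add {a b : S} (ha : IsRat a) (hb : IsRat b) : IsRat (a + b) := by
  obtain ⟨P, Q, h, e⟩ := ha
  obtain ⟨P', Q', h', e'⟩ := hb
  refine ⟨P * Q' + P' * Q, Q * Q', by simp [h, h'], ?_⟩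
  push_cast
  rw [← e, ← e']; ring

lemma IsRat.mul {a b : S} (ha : IsRat a) (hb : IsRat b) : IsRat (a * b) := by
  obtain ⟨P, Q, h, e⟩ := ha
  obtain ⟨P', Q', h', e'⟩ := hb
  refine ⟨P * P', Q * Q', by simp [h, h'], ?_⟩
  push_cast
  rw [← e, ← e']; ring

def W (s c : ℤ) (f : S) : Prop := ∀ m : Fin 2 →₀ ℕ, coeff m f ≠ 0 → c ≤ s * ((m 1 : ℤ) - m 0)

lemma W.mono {s c c' : ℤ} {f : S} (h : W s c f) (hc : c' ≤ c) : W s c' f :=
  fun m hm => hc.trans (h m hm)

lemma W.add {s c : ℤ} {f g : S} (h : W s c f) (h' : W s c g) : W s c (f + g) := by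
  intro m hm
  by_cases h1 : coeff m f = 0
  · apply h'
    simpa [h1] using hm
  · exact h m h1

lemma W.neg {s c : ℤ} {f : S} (h : W s c f) : W s c (-f) := by
  intro m hm
  apply h
  simpa using hm

lemma W.zero {s c : ℤ} : W s c 0 := by
  intro m hm
  simp at hm

lemma W.mul {s c d : ℤ} {f g : S} (h : W s c f) (h' : W s d g) : W s (c + d) (f * g) := by
  classical
  intro m hm
  rw [coeff_mul] at hm
  obtain ⟨p, hp, hne⟩ := Finset.exists_ne_zero_of_sum_ne_zero hm
  have e : p.1 + p.2 = m := by simpa using hp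
  have h1 := h p.1 (left_ne_zero_of_mul hne)
  have h2 := h' p.2 (right_ne_zero_of_mul hne)
  have e0 : (m 0 : ℤ) = p.1 0 + p.2 0 := by rw [← e]; simp
  have e1 : (m 1 : ℤ) = p.1 1 + p.2 1 := by rw [← e]; simp
  rw [e0, e1]
  nlinarith

lemma W.monomial {s : ℤ} (n : Fin 2 →₀ ℕ) (a : ℚ) :
    W s (s * ((n 1 : ℤ) - n 0)) (MvPowerSeries.monomial n a) := by
  classical
  intro m hm
  rw [coeff_monomial] at hm
  split_ifs at hm with h
  · rw [h]
  · simp at hm

lemma W.one {s : ℤ} : W s 0 (1 : S) := by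
  simpa using W.monomial (s := s) 0 1

lemma W.X0 {s : ℤ} : W s (-s) (X 0 : S) := by
  simpa [X] using W.monomial (s := s) (Finsupp.single 0 1) 1

lemma W.X1 {s : ℤ} : W s s (X 1 : S) := by
  simpa [X] using W.monomial (s := s) (Finsupp.single 1 1) 1

lemma W.div {s c : ℤ} {R Q : S} (hQ : W s 0 Q) (h0 : constantCoeff Q ≠ 0)
    (h : W s c (R * Q)) : W s c R := by
  classical
  have key : ∀ k : ℕ, ∀ m : Fin 2 →₀ ℕ, m 0 + m 1 = k → coeff m R ≠ 0 →
      c ≤ s * ((m 1 : ℤ) - m 0) := by
    intro k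
    induction k using Nat.strong_induction_on with
    | _ k ih =>
      intro m hk hm
      by_contra hc
      apply hc
      apply h
      rw [coeff_mul, Finset.sum_eq_single (m, 0)]
      · simpa [h0] using hm
      · intro p hp hne
        have e : p.1 + p.2 = m := by simpa using hp
        have e0 : m 0 = p.1 0 + p.2 0 := by rw [← e]; simp
        have e1 : m 1 = p.1 1 + p.2 1 := by rw [← e]; simp
        by_contra hz
        have h2 := hQ p.2 (right_ne_zero_of_mul hz)
        have hp2 : p.2 ≠ 0 := by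
          intro h2
          apply hne
          rw [h2, add_zero] at e
          exact Prod.ext e h2
        have hpos : 0 < p.2 0 + p.2 1 := by
          by_contra hn
          apply hp2
          ext i
          fin_cases i <;> simp <;> omega
        have h1 := ih (p.1 0 + p.1 1) (by omega) p.1 rfl (left_ne_zero_of_mul hz)
        apply hc
        rw [e0, e1]
        push_cast
        nlinarith
      · simp
  intro m hm
  exact key _ m rfl hm

lemma hs : PowerSeries.HasSubst (X 0 * X 1 : S) :=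
  PowerSeries.HasSubst.of_constantCoeff_zero (by simp)

noncomputable def D : PowerSeries ℚ →ₐ[ℚ] S := PowerSeries.substAlgHom hs

lemma pow_eq (d : ℕ) : (X 0 * X 1 : S) ^ d =
    MvPowerSeries.monomial (Finsupp.single 0 d + Finsupp.single 1 d) 1 := by
  rw [mul_pow, X_pow_eq, X_pow_eq, monomial_mul_monomial, one_mul]

lemma coeff_D (f : PowerSeries ℚ) (m : Fin 2 →₀ ℕ) :
    coeff m (D f) = if m 0 = m 1 then PowerSeries.coeff (m 0) f else 0 := by
  classical
  unfold D
  rw [PowerSeries.coe_substAlgHom, PowerSeries.coeff_subst hs, finsum_eq_single _ (m 0)]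
  · rw [pow_eq, coeff_monomial]
    by_cases h : m 0 = m 1
    · rw [if_pos h, if_pos]
      · simp
      · ext i
        fin_cases i <;> simp [h]
    · rw [if_neg h, if_neg]
      · simp
      · intro e
        apply h
        have := congrArg (fun t : Fin 2 →₀ ℕ => t 1) e
        simpa using this.symm
  · intro d hd
    rw [pow_eq, coeff_monomial, if_neg]
    · simp
    · intro e
      apply hd
      have := congrArg (fun t : Fin 2 →₀ ℕ => t 0) e
      simpa using this.symm

lemma W.D {s : ℤ} (f : PowerSeries ℚ) : W s 0 (D f) := by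
  intro m hm
  rw [coeff_D] at hm
  split_ifs at hm with h
  · simp [h]
  · simp at hm

lemma D_X : D PowerSeries.X = X 0 * X 1 := PowerSeries.substAlgHom_X hs

lemma constantCoeff_D (f : PowerSeries ℚ) : constantCoeff (D f) = PowerSeries.constantCoeff f := by
  have := coeff_D f 0
  simpa using this

lemma D_coe (p : Polynomial ℚ) :
    D (p : PowerSeries ℚ) =
      ((Polynomial.aeval (MvPolynomial.X 0 * MvPolynomial.X 1 : Pl) p : Pl) : S) := by
  induction p using Polynomial.induction_on' with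
  | add p q hp hq => simp [hp, hq]
  | monomial n a =>
    rw [← Polynomial.C_mul_X_pow_eq_monomial]
    simp only [Polynomial.coe_mul, Polynomial.coe_pow, Polynomial.coe_C, Polynomial.coe_X, map_mul,
      map_pow, D_X, Polynomial.aeval_C, Polynomial.aeval_X, MvPolynomial.coe_mul,
      MvPolynomial.coe_pow, MvPolynomial.coe_X]
    congr 1
    rw [PowerSeries.C_eq_algebraMap, AlgHom.commutes, MvPolynomial.algebraMap_eq,
      MvPolynomial.coe_C]
    rfl

noncomputable def E : Polynomial (PowerSeries ℚ) →+* S :=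
  Polynomial.eval₂RingHom (D : PowerSeries ℚ →+* S) (X 1)

lemma E_C (f : PowerSeries ℚ) : E (Polynomial.C f) = D f := by simp [E]

lemma E_X : E Polynomial.X = X 1 := by simp [E]

lemma W.E (g : Polynomial (PowerSeries ℚ)) : W 1 0 (E g) := by
  induction g using Polynomial.induction_on with
  | C a => rw [E_C]; exact W.D a
  | add p q hp hq => rw [map_add]; exact hp.add hq
  | monomial n a h =>
    rw [pow_succ, ← mul_assoc, map_mul, E_X]
    exact (h.mul W.X1).mono (by norm_num)

lemma constantCoeff_E (g : Polynomial (PowerSeries ℚ)) :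
    constantCoeff (E g) = PowerSeries.constantCoeff (g.coeff 0) := by
  induction g using Polynomial.induction_on with
  | C a => rw [E_C, constantCoeff_D]; simp
  | add p q hp hq => simp [hp, hq]
  | monomial n a h =>
    rw [pow_succ, ← mul_assoc, map_mul, E_X]
    simp

noncomputable abbrev φ : Polynomial ℚ →+* PowerSeries ℚ := Polynomial.coeToPowerSeries.ringHom

lemma E_map (q : Polynomial (Polynomial ℚ)) : ∃ P : Pl, E (q.map φ) = (P : S) := by
  induction q using Polynomial.induction_on with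
  | C a =>
    rw [Polynomial.map_C, E_C]
    exact ⟨_, D_coe a⟩
  | add p q hp hq =>
    obtain ⟨P, hP⟩ := hp
    obtain ⟨Q, hQ⟩ := hq
    exact ⟨P + Q, by simp [hP, hQ]⟩
  | monomial n a h =>
    obtain ⟨P, hP⟩ := h
    refine ⟨P * MvPolynomial.X 1, ?_⟩
    rw [pow_succ, ← mul_assoc, Polynomial.map_mul, map_mul, hP, Polynomial.map_X, E_X]
    simp

def Good (F : PowerSeries ℚ) : Prop :=
  ∃ A B : S, W 1 1 A ∧ W (-1) 1 B ∧ IsRat (D F + A + B)

lemma cc_eval (g : Polynomial (PowerSeries ℚ)) (H : PowerSeries ℚ)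
    (hH : PowerSeries.constantCoeff H = 0) :
    PowerSeries.constantCoeff (g.eval H) = PowerSeries.constantCoeff (g.coeff 0) := by
  induction g using Polynomial.induction_on with
  | C a => simp
  | add p q hp hq => simp [hp, hq]
  | monomial n a h => simp [hH]

lemma etale (q : Polynomial (Polynomial ℚ)) (H : PowerSeries ℚ)
    (hH : PowerSeries.constantCoeff H = 0) (hq : (q.map φ).eval H = 0)
    (hd : PowerSeries.constantCoeff ((q.map φ).derivative.eval H) ≠ 0) : Good H := by
  obtain ⟨g, hg⟩ := Polynomial.dvd_iff_isRoot.mpr hq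
  obtain ⟨H1, hH1⟩ := PowerSeries.X_dvd_iff.mpr hH
  have hder : (q.map φ).derivative = g + (Polynomial.X - Polynomial.C H) * g.derivative := by
    rw [hg]; simp
  have hG0 : constantCoeff (E g) ≠ 0 := by
    rw [constantCoeff_E, ← cc_eval g H hH]
    rw [hder] at hd
    simpa using hd
  set ψ : S := X 0 * D H1 with hψ
  have hDH : D H = X 1 * ψ := by rw [hH1, map_mul, D_X, hψ]; ring
  have hψ0 : constantCoeff (1 - ψ) ≠ 0 := by simp [hψ]
  have hψW : W (-1) 1 ψ := by simpa using (W.X0 (s := -1)).mul (W.D H1)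
  set U : S := (1 - ψ)⁻¹ with hU
  have hU1 : U * (1 - ψ) = 1 := MvPowerSeries.inv_mul_cancel _ hψ0
  have hUW : W (-1) 0 U := by
    apply W.div (Q := 1 - ψ) _ hψ0
    · rw [hU1]; exact W.one
    · rw [sub_eq_add_neg]
      exact W.one.add (hψW.mono (by norm_num)).neg
  set V : S := (E g)⁻¹ with hV
  have hV1 : V * E g = 1 := MvPowerSeries.inv_mul_cancel _ hG0
  have hVW : W 1 0 V := by
    apply W.div (W.E g) hG0
    rw [hV1]; exact W.one
  have hq0 : (q.coeff 0).coeff 0 = 0 := by
    have := cc_eval (q.map φ) H hH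
    rw [hq] at this
    simpa using this.symm
  obtain ⟨a, ha⟩ := Polynomial.X_dvd_iff.mpr hq0
  obtain ⟨P1, hP1⟩ := E_map (Polynomial.C a)
  obtain ⟨P2, hP2⟩ := E_map q.divX
  obtain ⟨P3, hP3⟩ := E_map q.derivative
  have hQ : ((MvPolynomial.X 0 * P1 + P2 : Pl) : S) = (1 - ψ) * E g := by
    have hX : (X 1 : S) ≠ 0 := by
      intro h
      have := congrArg (coeff (Finsupp.single (1 : Fin 2) 1)) h
      simp at this
    apply mul_left_cancel₀ hX
    have e1 : E (q.map φ) = X 1 * ((1 - ψ) * E g) := by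
      rw [hg, map_mul, map_sub, E_X, E_C, hDH]; ring
    rw [← e1]
    conv_rhs => rw [← Polynomial.divX_mul_X_add q, ha]
    rw [Polynomial.map_add, Polynomial.map_mul, map_add, map_mul, hP2, Polynomial.map_X, E_X,
      map_mul, Polynomial.map_mul, map_mul, hP1, Polynomial.map_C, E_C]
    have : φ Polynomial.X = PowerSeries.X := by simp
    rw [this, D_X]
    push_cast
    ring
  refine ⟨X 1 + X 1 * X 1 * E g.derivative * V, D H * ψ * U, ?_, ?_,
    MvPolynomial.X 1 * P3, MvPolynomial.X 0 * P1 + P2, ?_, ?_⟩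
  · apply W.X1.add
    exact (((W.X1.mul W.X1).mul (W.E _)).mul hVW).mono (by norm_num)
  · simpa using ((W.D H).mul hψW).mul hUW
  · have : constantCoeff ((MvPolynomial.X 0 * P1 + P2 : Pl) : S) ≠ 0 := by
      rw [hQ, map_mul]
      exact mul_ne_zero hψ0 hG0
    rw [← coeff_zero_eq_constantCoeff_apply, MvPolynomial.coeff_coe] at this
    rw [MvPolynomial.constantCoeff_eq]
    exact this
  · rw [hQ]
    push_cast
    rw [← hP3, ← Polynomial.derivative_map, hder, map_add, map_mul, map_sub, E_X, E_C, hDH]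
    linear_combination (X 1 * ψ * ψ * E g) * hU1 +
      (X 1 * X 1 * E g.derivative * (1 - ψ)) * hV1

end Pool.Agent.H.MP_400a6b_co
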