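import Pool.Agent.H.MP_400a6b_co.Basic

set_option autoImplicit false

namespace Pool.Agent.H.MP_400a6b_co

open MvPowerSeries

lemma coe_dvd (k : ℕ) (a : Polynomial ℚ) (h : PowerSeries.X ^ k ∣ φ a) : Polynomial.X ^ k ∣ a := by
  rw [Polynomial.X_pow_dvd_iff]
  rw [PowerSeries.X_pow_dvd_iff] at h
  intro d hd
  simpa using h d hd

lemma φ_inj : Function.Injective φ := by
  intro a b h
  exact Polynomial.coe_injective ℚ h

lemma eval_φ (p : Polynomial (Polynomial ℚ)) (a : Polynomial ℚ) :
    (p.map φ).eval (φ a) = φ (p.eval a) := by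
  rw [Polynomial.eval_map, Polynomial.eval₂_hom]

lemma good_of (F : PowerSeries ℚ) (p : Polynomial (Polynomial ℚ)) (hp : (p.map φ).eval F = 0)
    (hd : (p.map φ).derivative.eval F ≠ 0) : Good F := by
  obtain ⟨m, u, hu0, hu⟩ : ∃ (m : ℕ) (u : PowerSeries ℚ), PowerSeries.constantCoeff u ≠ 0 ∧
      (p.map φ).derivative.eval F = PowerSeries.X ^ m * u := by
    refine ⟨((p.map φ).derivative.eval F).order.toNat,
      PowerSeries.divXPowOrder ((p.map φ).derivative.eval F), ?_, ?_⟩
    · rwa [Ne, PowerSeries.constantCoeff_divXPowOrder_eq_zero_iff]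
    · exact PowerSeries.X_pow_order_mul_divXPowOrder.symm
  set A : Polynomial ℚ := PowerSeries.trunc (m + 1) F with hA
  obtain ⟨H1, hH1⟩ : PowerSeries.X ^ (m + 1) ∣ F - φ A := by
    rw [PowerSeries.X_pow_dvd_iff]
    intro d hd
    simp [hA, PowerSeries.coeff_trunc, hd]
  set H : PowerSeries ℚ := PowerSeries.X * H1 with hH
  have hF : F = φ A + PowerSeries.X ^ m * H := by
    rw [hH]; linear_combination hH1
  have h1' : PowerSeries.X ^ m ∣ φ (p.derivative.eval A) := by
    rw [← eval_φ, ← Polynomial.derivative_map]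
    have h := Polynomial.sub_dvd_eval_sub F (φ A) (p.map φ).derivative
    rw [hu, hH1] at h
    have h2 : (PowerSeries.X ^ m : PowerSeries ℚ) ∣ PowerSeries.X ^ (m + 1) * H1 :=
      ⟨PowerSeries.X * H1, by ring⟩
    have h3 := (dvd_mul_right (PowerSeries.X ^ m) u).sub (h2.trans h)
    simpa using h3
  have h1 := coe_dvd _ _ h1'
  have h0 : Polynomial.X ^ (2 * m) ∣ p.eval A := by
    apply coe_dvd
    obtain ⟨k, hk⟩ := Polynomial.binomExpansion (p.map φ) (φ A) (PowerSeries.X ^ m * H)
    rw [← hF, hp, Polynomial.derivative_map, eval_φ, eval_φ] at hk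
    obtain ⟨w, hw⟩ := h1'
    refine ⟨-(w * H) - k * H ^ 2, ?_⟩
    rw [hw] at hk
    linear_combination -hk
  set q0 : Polynomial (Polynomial ℚ) :=
    (Polynomial.taylor A p).comp (Polynomial.C (Polynomial.X ^ m) * Polynomial.X) with hq0
  obtain ⟨q, hq⟩ : Polynomial.C (Polynomial.X ^ (2 * m)) ∣ q0 := by
    rw [Polynomial.C_dvd_iff_dvd_coeff]
    intro i
    rw [hq0, Polynomial.comp_C_mul_X_coeff]
    rcases i with _ | _ | i
    · simpa using h0
    · rw [zero_add, Polynomial.taylor_coeff_one, two_mul, pow_add, pow_one]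
      exact mul_dvd_mul h1 dvd_rfl
    · apply Dvd.dvd.mul_left
      rw [← pow_mul]
      exact pow_dvd_pow _ (by nlinarith)
  have hX : (PowerSeries.X ^ m : PowerSeries ℚ) ≠ 0 := pow_ne_zero _ PowerSeries.X_ne_zero
  have hφX : φ Polynomial.X = PowerSeries.X := by simp
  have hm : Polynomial.C (PowerSeries.X ^ (2 * m)) * q.map φ =
      (p.map φ).comp (Polynomial.C (PowerSeries.X ^ m) * Polynomial.X + Polynomial.C (φ A)) := by
    have := congrArg (Polynomial.map φ) hq
    rw [Polynomial.map_mul, Polynomial.map_C, map_pow φ, hφX] at this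
    rw [← this, hq0, Polynomial.taylor_apply, Polynomial.comp_assoc, Polynomial.map_comp]
    congr 1
    simp [hφX]
  have hF' : PowerSeries.X ^ m * H + φ A = F := by rw [hF]; ring
  have e1 : (q.map φ).eval H = 0 := by
    have := congrArg (Polynomial.eval H) hm
    rw [Polynomial.eval_mul, Polynomial.eval_comp] at this
    simp only [Polynomial.eval_C, Polynomial.eval_add, Polynomial.eval_mul, Polynomial.eval_X] at this
    rw [hF', hp] at this
    exact (mul_eq_zero.mp this).resolve_left (pow_ne_zero _ PowerSeries.X_ne_zero)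
  have e2 : (q.map φ).derivative.eval H = u := by
    have := congrArg (fun t => Polynomial.eval H (Polynomial.derivative t)) hm
    simp only [Polynomial.derivative_comp, Polynomial.derivative_C_mul, Polynomial.eval_mul,
      Polynomial.eval_C, Polynomial.eval_comp, Polynomial.eval_add, Polynomial.eval_X,
      Polynomial.derivative_add, Polynomial.derivative_C, Polynomial.derivative_X,
      Polynomial.eval_one, Polynomial.eval_zero] at this
    rw [hF', hu] at this
    apply mul_left_cancel₀ hX
    apply mul_left_cancel₀ hX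
    linear_combination this
  obtain ⟨A', B', hA', hB', hR⟩ := etale q H (by simp [hH]) e1 (by rwa [e2])
  refine ⟨D (PowerSeries.X ^ m) * A', D (PowerSeries.X ^ m) * B',
    ((W.D _).mul hA').mono (by norm_num), ((W.D _).mul hB').mono (by norm_num), ?_⟩
  have r1 : IsRat (D (φ A)) := by
    have := D_coe A
    rw [show φ A = (A : PowerSeries ℚ) from rfl, this]
    exact IsRat.coe _
  have r2 : IsRat (D (PowerSeries.X ^ m)) := by
    have := D_coe (Polynomial.X ^ m)
    rw [Polynomial.coe_pow, Polynomial.coe_X] at this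
    rw [this]
    exact IsRat.coe _
  have := r1.add (r2.mul hR)
  convert this using 1
  conv_lhs => rw [hF]
  rw [map_add, map_mul]
  ring

lemma good (F : PowerSeries ℚ) : ∀ (n : ℕ) (p : Polynomial (Polynomial ℚ)), p.natDegree = n →
    p ≠ 0 → (p.map φ).eval F = 0 → Good F := by
  intro n
  induction n using Nat.strong_induction_on with
  | _ n ih =>
    intro p hn h0 hp
    by_cases hd : (p.map φ).derivative.eval F = 0
    · have hdeg : p.natDegree ≠ 0 := by
        intro h
        rw [Polynomial.eq_C_of_natDegree_eq_zero h] at hp h0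
        simp only [Polynomial.map_C, Polynomial.eval_C] at hp
        apply h0
        rw [φ_inj (hp.trans (map_zero φ).symm), map_zero]
      refine ih p.derivative.natDegree ?_ p.derivative rfl ?_ ?_
      · rw [← hn]; exact Polynomial.natDegree_derivative_lt hdeg
      · intro h
        exact hdeg (Polynomial.derivative_eq_zero.mp h)
      · rwa [← Polynomial.derivative_map]
    · exact good_of F p hp hd

lemma bound (R : S) (h : IsRat R) :
    ∃ C M : ℚ, 0 ≤ C ∧ ∀ m : Fin 2 →₀ ℕ, |coeff m R| ≤ C * M ^ (m 0 + m 1) := by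
  classical
  obtain ⟨P, Q, h0, e⟩ := h
  obtain ⟨q0, hq0⟩ : ∃ q0 : ℚ, q0 = |MvPolynomial.constantCoeff Q| := ⟨_, rfl⟩
  have hq0p : 0 < q0 := hq0 ▸ abs_pos.mpr h0
  obtain ⟨s, hs⟩ : ∃ s : ℚ, s = ∑ b ∈ Q.support, |Q.coeff b| := ⟨_, rfl⟩
  obtain ⟨t, ht⟩ : ∃ t : ℚ, t = ∑ b ∈ P.support, |P.coeff b| := ⟨_, rfl⟩
  have hs0 : 0 ≤ s := hs ▸ Finset.sum_nonneg fun _ _ => abs_nonneg _
  have ht0 : 0 ≤ t := ht ▸ Finset.sum_nonneg fun _ _ => abs_nonneg _
  have hP : ∀ b, |P.coeff b| ≤ t := by
    intro b
    by_cases hb : b ∈ P.support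
    · rw [ht]
      exact Finset.single_le_sum (f := fun b => |P.coeff b|) (fun _ _ => abs_nonneg _) hb
    · rw [MvPolynomial.notMem_support_iff.mp hb]; simpa using ht0
  obtain ⟨M, hM1, hMq⟩ : ∃ M : ℚ, 1 ≤ M ∧ M * q0 = q0 + 2 * s := by
    refine ⟨1 + 2 * s / q0, ?_, by field_simp⟩
    have : 0 ≤ 2 * s / q0 := by positivity
    linarith
  obtain ⟨C, hC0, hCq⟩ : ∃ C : ℚ, 0 ≤ C ∧ C * q0 = 2 * t :=
    ⟨2 * t / q0, by positivity, by field_simp⟩
  have hM0 : 0 < M := by linarith
  refine ⟨C, M, hC0, ?_⟩
  have key : ∀ k : ℕ, ∀ m : Fin 2 →₀ ℕ, m 0 + m 1 = k → |coeff m R| ≤ C * M ^ k := by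
    intro k
    induction k using Nat.strong_induction_on with
    | _ k ih =>
      intro m hk
      have e1 := congrArg (coeff m) e
      rw [coeff_mul, MvPolynomial.coeff_coe,
        ← Finset.add_sum_erase _ _ (a := (m, 0)) (by simp)] at e1
      simp only [MvPolynomial.coeff_coe] at e1
      have hb : |∑ p ∈ (Finset.HasAntidiagonal.antidiagonal m).erase (m, 0), coeff p.1 R * Q.coeff p.2| * M ≤
          C * M ^ k * s := by
        calc _ ≤ (∑ p ∈ (Finset.HasAntidiagonal.antidiagonal m).erase (m, 0), |coeff p.1 R * Q.coeff p.2|) * M := by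
              gcongr
              exact Finset.abs_sum_le_sum_abs _ _
          _ ≤ ∑ p ∈ (Finset.HasAntidiagonal.antidiagonal m).erase (m, 0), C * M ^ k * |Q.coeff p.2| := by
              rw [Finset.sum_mul]
              apply Finset.sum_le_sum
              intro p hp
              rw [Finset.mem_erase] at hp
              have e : p.1 + p.2 = m := by simpa using hp.2
              have e0 : m 0 = p.1 0 + p.2 0 := by rw [← e]; simp
              have e1 : m 1 = p.1 1 + p.2 1 := by rw [← e]; simp
              have hp2 : p.2 ≠ 0 := by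
                intro h2
                apply hp.1
                rw [h2, add_zero] at e
                exact Prod.ext e h2
              have hpos : 0 < p.2 0 + p.2 1 := by
                by_contra hn
                apply hp2
                ext i
                fin_cases i <;> simp <;> omega
              have h1 := ih (p.1 0 + p.1 1) (by omega) p.1 rfl
              have h2 : M ^ (p.1 0 + p.1 1) * M ≤ M ^ k := by
                rw [← pow_succ]
                exact pow_le_pow_right₀ hM1 (by omega)
              rw [abs_mul]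
              calc _ ≤ C * M ^ (p.1 0 + p.1 1) * |Q.coeff p.2| * M := by gcongr
                _ = C * (M ^ (p.1 0 + p.1 1) * M) * |Q.coeff p.2| := by ring
                _ ≤ _ := by gcongr
          _ ≤ C * M ^ k * s := by
              rw [← Finset.mul_sum]
              gcongr
              have hinj : Set.InjOn (fun p : (Fin 2 →₀ ℕ) × (Fin 2 →₀ ℕ) => p.2)
                  ((Finset.HasAntidiagonal.antidiagonal m).erase (m, 0) : Finset _) := by
                intro a ha b hb hab
                have ea : a.1 + a.2 = m := by simpa using (Finset.mem_erase.mp ha).2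
                have eb : b.1 + b.2 = m := by simpa using (Finset.mem_erase.mp hb).2
                have hab' : a.2 = b.2 := hab
                refine Prod.ext ?_ hab'
                rw [hab', ← eb] at ea
                exact add_right_cancel ea
              rw [← Finset.sum_image (f := fun b => |Q.coeff b|) hinj, hs]
              rw [← Finset.sum_filter_ne_zero]
              apply Finset.sum_le_sum_of_subset_of_nonneg
              · intro b hb
                rw [MvPolynomial.mem_support_iff]
                simpa using (Finset.mem_filter.mp hb).2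
              · intro _ _ _
                exact abs_nonneg _
      have h3 : |coeff m R| * q0 ≤ t +
          |∑ p ∈ (Finset.HasAntidiagonal.antidiagonal m).erase (m, 0), coeff p.1 R * Q.coeff p.2| := by
        rw [hq0, ← abs_mul, MvPolynomial.constantCoeff_eq, eq_sub_of_add_eq e1]
        exact (abs_sub _ _).trans (by gcongr; exact hP m)
      have h4 : 1 ≤ M ^ k := one_le_pow₀ hM1
      have h5 : |coeff m R| * (q0 * M) ≤ C * M ^ k * (q0 * M) := by
        have a1 : t * M ≤ t * M * M ^ k := le_mul_of_one_le_right (by positivity) h4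
        have a2 : C * M ^ k * (q0 * M) = 2 * (t * M * M ^ k) := by
          linear_combination (M ^ k * M) * hCq
        have a3 : 2 * (C * M ^ k * s) ≤ C * M ^ k * (q0 * M) := by
          have : 0 ≤ C * M ^ k * q0 := by positivity
          have b : C * M ^ k * (q0 * M) = C * M ^ k * q0 + 2 * (C * M ^ k * s) := by
            linear_combination (C * M ^ k) * hMq
          linarith
        have a4 := mul_le_mul_of_nonneg_right h3 (by linarith : 0 ≤ M)
        nlinarith
      exact le_of_mul_le_mul_right h5 (by positivity)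
  intro m
  exact key _ m rfl

def Bs (M : ℚ) : S := fun m => M ^ (m 0 + m 1)

lemma coeff_Bs (M : ℚ) (m : Fin 2 →₀ ℕ) : coeff m (Bs M) = M ^ (m 0 + m 1) := rfl

lemma Bs_rat (M : ℚ) : IsRat (Bs M) := by
  classical
  refine ⟨1, 1 + MvPolynomial.monomial (Finsupp.single 0 1) (-M)
    + MvPolynomial.monomial (Finsupp.single 1 1) (-M)
    + MvPolynomial.monomial (Finsupp.single 0 1 + Finsupp.single 1 1) (M ^ 2), ?_, ?_⟩
  · have h : (Finsupp.single 0 1 + Finsupp.single 1 1 : Fin 2 →₀ ℕ) ≠ 0 := by
      intro h
      have := congrArg (fun t : Fin 2 →₀ ℕ => t 0) h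
      simp at this
    simp [MvPolynomial.constantCoeff_monomial, h]
  · simp only [MvPolynomial.coe_add, MvPolynomial.coe_one,
      MvPolynomial.coe_monomial]
    ext m
    simp only [mul_add, mul_one, map_add, coeff_mul_monomial, coeff_Bs,
      coeff_one, Finsupp.le_def, Fin.forall_fin_two, Finsupp.ext_iff]
    simp only [Finsupp.coe_tsub, Pi.sub_apply, Finsupp.coe_add, Pi.add_apply, Finsupp.single_apply]
    rcases h0 : m 0 with _ | a <;> rcases h1 : m 1 with _ | b <;> simp <;> ring

lemma geo_rat (N : ℚ) : IsRat (D (PowerSeries.mk fun n => N ^ n)) := by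
  refine ⟨1, Polynomial.aeval (MvPolynomial.X 0 * MvPolynomial.X 1 : Pl)
    (1 - Polynomial.C N * Polynomial.X), by simp, ?_⟩
  rw [← D_coe, ← map_mul]
  have : (PowerSeries.mk fun n => N ^ n) *
      ((1 - Polynomial.C N * Polynomial.X : Polynomial ℚ) : PowerSeries ℚ) = 1 := by
    have e : ((1 - Polynomial.C N * Polynomial.X : Polynomial ℚ) : PowerSeries ℚ) =
        1 - PowerSeries.C N * PowerSeries.X := by simp
    rw [e, mul_sub, mul_one, ← mul_assoc]
    ext n
    rcases n with _ | n
    · simp
    · simp [PowerSeries.coeff_succ_mul_X, pow_succ, PowerSeries.coeff_one]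
  rw [this]
  simp

theorem main (F : PowerSeries ℚ) (hF : ∀ n : ℕ, 0 ≤ PowerSeries.coeff n F)
    (p : Polynomial (Polynomial ℚ)) (h0 : p ≠ 0) (hp : Polynomial.eval₂ φ F p = 0) :
    ∃ R : S, IsRat R ∧ (∀ m : Fin 2 →₀ ℕ, 0 ≤ coeff m R) ∧
      (∀ n : ℕ, coeff (Finsupp.single 0 n + Finsupp.single 1 n) R = PowerSeries.coeff n F) := by
  obtain ⟨A, B, hA, hB, hR⟩ := good F _ p rfl h0 (by rwa [Polynomial.eval_map])
  obtain ⟨C, M, hC, hb⟩ := bound _ hR
  have hdiag : ∀ m : Fin 2 →₀ ℕ, m 0 = m 1 → coeff m (D F + A + B +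
      ((MvPolynomial.C C : Pl) : S) * (Bs M + ((MvPolynomial.C (-1) : Pl) : S) *
        D (PowerSeries.mk fun n => (M ^ 2) ^ n))) = PowerSeries.coeff (m 0) F := by
    intro m hm
    have a : coeff m A = 0 := by
      by_contra h
      have := hA m h
      omega
    have b : coeff m B = 0 := by
      by_contra h
      have := hB m h
      omega
    simp only [MvPolynomial.coe_C, map_add, coeff_C_mul, coeff_D, if_pos hm, a, b, coeff_Bs,
      PowerSeries.coeff_mk]
    rw [← hm]
    ring
  refine ⟨_, hR.add ((IsRat.coe (MvPolynomial.C C)).mul ((Bs_rat M).add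
    ((IsRat.coe (MvPolynomial.C (-1))).mul (geo_rat (M ^ 2))))), ?_, ?_⟩
  · intro m
    by_cases hm : m 0 = m 1
    · rw [hdiag m hm]; exact hF _
    · have := hb m
      rw [map_add]
      simp only [MvPolynomial.coe_C, map_add (coeff m) (Bs M), coeff_C_mul, coeff_D, if_neg hm,
        coeff_Bs]
      have := neg_abs_le (coeff m (D F + A + B))
      linarith
  · intro n
    rw [hdiag _ (by simp)]
    simp

end Pool.Agent.H.MP_400a6b_co
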